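import Mathlib
import Pool.Agent.K.MP_54e702_co.C1

set_option autoImplicit false

open scoped Pointwise

theorem Pool.Agent.Results.MP_54e702_co.ThinBases.result :
    ∀ s : ℕ, 2 ≤ s → ∃ N : ℕ, ∀ n : ℕ, N ≤ n → ∃ A : Finset (ZMod n),
      (∀ g : ZMod n, g ∈ s • A) ∧
        (A.card : ℝ) ≤ (8 * s * (1 + Real.log s) * (s.factorial : ℝ)) ^ ((1 : ℝ) / (s : ℝ)) *
          (n : ℝ) ^ ((1 : ℝ) / (s : ℝ)) :=
  fun s hs => Pool.Agent.P.MP_54e702_co.main_all s hs
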