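import Mathlib
import Pool.Agent.K.MP_54e702_co.C2

set_option autoImplicit false

open scoped Pointwise

theorem Pool.Agent.Results.MP_54e702_co.TwoBases.result :
    ∀ c : ℝ, Real.sqrt (162 / 65) < c → ∀ N : ℕ, ∃ n : ℕ, N ≤ n ∧ ∃ A : Finset (ZMod n),
      (∀ g : ZMod n, g ∈ A + A) ∧ (A.card : ℝ) ≤ c * Real.sqrt n :=
  fun c hc N => Pool.Agent.P.MP_54e702_co.main_two c hc N
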